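import Pool.Agent.helper28.LT.Defs
import Pool.Agent.helper77.FT.P6c

set_option autoImplicit false

/-! Module DC (count of the twisted dual points) of the LT project. -/

namespace Pool.Agent.helper28.LT

open Finset NumberField Pool.Agent.helper3.FT Pool.Agent.helper47.RA

/-- the twisted point -/
def DC_tw (q : ℕ) (v : ℤ × ℤ × ℤ × ℤ) : ℤ × ℤ × ℤ × ℤ := (v.1, v.2.1, v.2.2.1, q * v.2.2.2)

/-- logarithm bound -/
theorem DC_log (δ : ℝ) (hδ : 0 < δ) : ∃ C : ℝ, 1 ≤ C ∧ ∀ T U : ℕ, 1 ≤ T → 1 ≤ U → U ≤ T ^ 2 →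
    1 + Real.log ((34 * U : ℕ) : ℝ) ≤ C * (T : ℝ) ^ δ := by
  refine ⟨1 + 34 ^ (δ / 2) / (δ / 2), by have : 0 < (34 : ℝ) ^ (δ / 2) / (δ / 2) := by positivity
                                         linarith, ?_⟩
  intro T U hT1 hU hUT
  have hT : (1 : ℝ) ≤ T := by exact_mod_cast hT1
  have hU' : (U : ℝ) ≤ (T : ℝ) ^ 2 := by exact_mod_cast hUT
  have hU0 : (0 : ℝ) < U := by exact_mod_cast hU
  have h1 : Real.log ((34 * U : ℕ) : ℝ) ≤ (34 * (T : ℝ) ^ 2) ^ (δ / 2) / (δ / 2) := by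
    calc Real.log ((34 * U : ℕ) : ℝ) ≤ Real.log (34 * (T : ℝ) ^ 2) := by
          apply Real.log_le_log
          · push_cast; positivity
          · push_cast; linarith
      _ ≤ (34 * (T : ℝ) ^ 2) ^ (δ / 2) / (δ / 2) := Real.log_le_rpow_div (by positivity) (by positivity)
  have h2 : (1 : ℝ) ≤ (T : ℝ) ^ δ := Real.one_le_rpow hT hδ.le
  have h3 : ((T : ℝ) ^ 2) ^ (δ / 2) = (T : ℝ) ^ δ := by
    rw [← Real.rpow_natCast, ← Real.rpow_mul (by linarith)]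
    congr 1
    push_cast
    ring
  calc 1 + Real.log ((34 * U : ℕ) : ℝ) ≤ (T : ℝ) ^ δ + (34 * (T : ℝ) ^ 2) ^ (δ / 2) / (δ / 2) := by linarith
    _ = (1 + 34 ^ (δ / 2) / (δ / 2)) * (T : ℝ) ^ δ := by
      rw [Real.mul_rpow (by norm_num) (by positivity), h3]; ring

theorem DC_card (K y P q L : ℕ) : ((dualSetQ K y P q L).card : ℝ) =
    ∑ v ∈ vboxQ q L, ∑ h ∈ Ico P (2 * P), ∑ p ∈ pairs K K y, P6c_c h p (DC_tw q v) := by
  unfold dualSetQ
  rw [card_filter, sum_product]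
  push_cast
  rw [sum_comm (s := vboxQ q L)]
  refine sum_congr rfl fun h _ => ?_
  rw [sum_product, sum_comm (s := vboxQ q L)]
  refine sum_congr rfl fun p _ => sum_congr rfl fun v _ => ?_
  unfold P6c_c DC_tw
  simp only

theorem DC_mem {q L : ℕ} {v : ℤ × ℤ × ℤ × ℤ} (hv : v ∈ vboxQ q L) :
    |(DC_tw q v).1| ≤ 34 * (q * L) ∧ |(DC_tw q v).2.1| ≤ 34 * (q * L) ∧
      |(DC_tw q v).2.2.1| ≤ 34 * (q * L) ∧ |(DC_tw q v).2.2.2| ≤ 34 * (q * L) := by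
  unfold vboxQ at hv
  simp only [mem_product, mem_Icc] at hv
  obtain ⟨h1, h2, h3, h4⟩ := hv
  unfold DC_tw
  simp only
  refine ⟨abs_le.2 ⟨by linarith [h1.1], by linarith [h1.2]⟩,
    abs_le.2 ⟨by linarith [h2.1], by linarith [h2.2]⟩,
    abs_le.2 ⟨by linarith [h3.1], by linarith [h3.2]⟩, ?_⟩
  rw [abs_mul, abs_of_nonneg (by positivity : (0 : ℤ) ≤ q)]
  have h5 : |v.2.2.2| ≤ L := abs_le.2 h4
  have h6 : (q : ℤ) * |v.2.2.2| ≤ q * L := mul_le_mul_of_nonneg_left h5 (by positivity)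
  have h7 : (0 : ℤ) ≤ q * L := by positivity
  linarith

/-- size of the resultant -/
theorem DC_Rf_le (U : ℤ) (hU : 0 ≤ U) (A A' B X : ℤ) (a1 : |A| ≤ U) (a2 : |A'| ≤ U)
    (a3 : |B| ≤ U) (a4 : |X| ≤ U) : |Rf A A' B X| ≤ 4000 * U ^ 6 := by
  have hP : |A' * B| ≤ U ^ 2 := by
    rw [abs_mul]
    calc |A'| * |B| ≤ U * U := mul_le_mul a2 a3 (abs_nonneg _) hU
      _ = _ := by ring
  have hQ : |A * X| ≤ U ^ 2 := by
    rw [abs_mul]
    calc |A| * |X| ≤ U * U := mul_le_mul a1 a4 (abs_nonneg _) hU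
      _ = _ := by ring
  have hB5 : |A * B ^ 5| ≤ U ^ 6 := by
    rw [abs_mul, abs_pow]
    calc |A| * |B| ^ 5 ≤ U * U ^ 5 :=
          mul_le_mul a1 (pow_le_pow_left₀ (abs_nonneg _) a3 5) (by positivity) (by positivity)
      _ = _ := by ring
  have hX5 : |A' ^ 5 * X| ≤ U ^ 6 := by
    rw [abs_mul, abs_pow]
    calc |A'| ^ 5 * |X| ≤ U ^ 5 * U :=
          mul_le_mul (pow_le_pow_left₀ (abs_nonneg _) a2 5) a4 (by positivity) (by positivity)
      _ = _ := by ring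
  have t1 : |(A' * B) ^ 3| ≤ U ^ 6 := by
    rw [abs_pow]
    calc |A' * B| ^ 3 ≤ (U ^ 2) ^ 3 := pow_le_pow_left₀ (abs_nonneg _) hP 3
      _ = _ := by ring
  have t2 : |(A' * B) ^ 2 * (A * X)| ≤ U ^ 6 := by
    rw [abs_mul, abs_pow]
    calc |A' * B| ^ 2 * |A * X| ≤ (U ^ 2) ^ 2 * (U ^ 2) :=
          mul_le_mul (pow_le_pow_left₀ (abs_nonneg _) hP 2) hQ (abs_nonneg _) (by positivity)
      _ = _ := by ring
  have t3 : |(A' * B) * (A * X) ^ 2| ≤ U ^ 6 := by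
    rw [abs_mul, abs_pow]
    calc |A' * B| * |A * X| ^ 2 ≤ (U ^ 2) * (U ^ 2) ^ 2 :=
          mul_le_mul hP (pow_le_pow_left₀ (abs_nonneg _) hQ 2) (by positivity) (by positivity)
      _ = _ := by ring
  have t4 : |(A * X) ^ 3| ≤ U ^ 6 := by
    rw [abs_pow]
    calc |A * X| ^ 3 ≤ (U ^ 2) ^ 3 := pow_le_pow_left₀ (abs_nonneg _) hQ 3
      _ = _ := by ring
  rw [abs_le] at t1 t2 t3 t4 hB5 hX5 ⊢
  have hT6 : (0 : ℤ) ≤ U ^ 6 := by positivity
  unfold Rf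
  constructor
  · linarith [t1.1, t2.1, t3.2, t4.1, hB5.2, hX5.2]
  · linarith [t1.2, t2.2, t3.1, t4.2, hB5.1, hX5.1]

/-- size of the cubic forms -/
theorem DC_F_le (U S : ℤ) (hU : 0 ≤ U) (hS : 0 ≤ S) (A A' B X n k : ℤ) (a1 : |A| ≤ U)
    (a2 : |A'| ≤ U) (a3 : |B| ≤ U) (a4 : |X| ≤ U) (hn0 : 0 ≤ n) (hn : n ≤ S) (hk0 : 0 ≤ k)
    (hk : k ≤ S) : |F1 A A' B n k| ≤ 8 * (U * S ^ 3) ∧ |F2 A' B X n k| ≤ 8 * (U * S ^ 3) := by
  have mon : ∀ (a b : ℕ), a + b = 3 → n ^ a * k ^ b ≤ S ^ 3 := by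
    intro a b hab
    calc n ^ a * k ^ b ≤ S ^ a * S ^ b :=
          mul_le_mul (pow_le_pow_left₀ hn0 hn a) (pow_le_pow_left₀ hk0 hk b) (by positivity) (by positivity)
      _ = S ^ 3 := by rw [← pow_add, hab]
  have term : ∀ (Y : ℤ), |Y| ≤ U → ∀ a b : ℕ, a + b = 3 →
      |Y * (n ^ a * k ^ b)| ≤ U * S ^ 3 := by
    intro Y hY a b hab
    rw [abs_mul, abs_of_nonneg (by positivity : 0 ≤ n ^ a * k ^ b)]
    exact mul_le_mul hY (mon a b hab) (by positivity) (by positivity)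
  have hT4 : (0 : ℤ) ≤ U * S ^ 3 := by positivity
  constructor
  · have u1 := term A a1 3 0 rfl
    have u2 := term A' a2 1 2 rfl
    have u3 := term B a3 0 3 rfl
    rw [abs_le] at u1 u2 u3 ⊢
    unfold F1
    have e : 5 * A * n ^ 3 - 2 * A' * n * k ^ 2 + B * k ^ 3 =
      5 * (A * (n ^ 3 * k ^ 0)) - 2 * (A' * (n ^ 1 * k ^ 2)) + B * (n ^ 0 * k ^ 3) := by
      ring
    rw [e]
    constructor
    · linarith [u1.1, u2.2, u3.1]
    · linarith [u1.2, u2.1, u3.2]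
  · have u1 := term A' a2 3 0 rfl
    have u2 := term B a3 2 1 rfl
    have u3 := term X a4 0 3 rfl
    rw [abs_le] at u1 u2 u3 ⊢
    unfold F2
    have e : A' * n ^ 3 + 2 * B * n ^ 2 * k - 5 * X * k ^ 3 =
      A' * (n ^ 3 * k ^ 0) + 2 * (B * (n ^ 2 * k ^ 1)) - 5 * (X * (n ^ 0 * k ^ 3)) := by
      ring
    rw [e]
    constructor
    · linarith [u1.1, u2.1, u3.2]
    · linarith [u1.2, u2.2, u3.1]

theorem DC_vbox_sum (q L : ℕ) (hq : 1 ≤ q) (hL : 1 ≤ L) (Cg Lg : ℝ)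
    (hg : ∑ a ∈ Icc (-((34 * (q * L) : ℕ) : ℤ)) ((34 * (q * L) : ℕ) : ℤ),
      ∑ b ∈ Icc (-((34 * (q * L) : ℕ) : ℤ)) ((34 * (q * L) : ℕ) : ℤ), (Int.gcd a b : ℝ) ≤
      Cg * ((34 * (q * L) : ℕ) : ℝ) ^ 2 * Lg) :
    ∑ v ∈ vboxQ q L, (Int.gcd v.1 v.2.1 : ℝ) ≤
      (69 * (q * L) : ℝ) * (3 * L) * (Cg * ((34 * (q * L) : ℕ) : ℝ) ^ 2 * Lg) := by
  unfold vboxQ
  rw [sum_product]
  have hqL : 1 ≤ q * L := Nat.mul_pos hq hL
  have hqL' : (1 : ℝ) ≤ (q : ℝ) * L := by exact_mod_cast hqL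
  have hL' : (1 : ℝ) ≤ L := by exact_mod_cast hL
  have h1 : ∀ a : ℤ, ∑ w ∈ Icc (-(34 * q * L : ℤ)) (34 * q * L) ×ˢ
        Icc (-(34 * q * L : ℤ)) (34 * q * L) ×ˢ Icc (-(L : ℤ)) L,
      (Int.gcd a w.1 : ℝ) = ((68 * (q * L) + 1 : ℝ) * (2 * L + 1)) *
        ∑ b ∈ Icc (-(34 * q * L : ℤ)) (34 * q * L), (Int.gcd a b : ℝ) := by
    intro a
    rw [sum_product, mul_sum]
    refine sum_congr rfl fun b _ => ?_
    simp only
    rw [sum_const, card_product, Int.card_Icc, Int.card_Icc]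
    have e1 : (34 * (q : ℤ) * L + 1 - -(34 * q * L)).toNat = 68 * (q * L) + 1 := by
      have : (34 * (q : ℤ) * L + 1 - -(34 * q * L)) = ((68 * (q * L) + 1 : ℕ) : ℤ) := by
        push_cast; ring
      rw [this, Int.toNat_natCast]
    have e2 : ((L : ℤ) + 1 - -L).toNat = 2 * L + 1 := by omega
    rw [e1, e2]
    simp only [nsmul_eq_mul]
    push_cast
    ring
  rw [sum_congr rfl fun a _ => h1 a, ← mul_sum]
  have e3 : ((34 * (q * L) : ℕ) : ℤ) = 34 * (q : ℤ) * L := by push_cast; ring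
  rw [e3] at hg
  have h0 : (0 : ℝ) ≤ ∑ a ∈ Icc (-(34 * q * L : ℤ)) (34 * q * L),
      ∑ b ∈ Icc (-(34 * q * L : ℤ)) (34 * q * L), (Int.gcd a b : ℝ) := by positivity
  calc ((68 * (q * L) + 1 : ℝ) * (2 * L + 1)) * ∑ a ∈ Icc (-(34 * q * L : ℤ)) (34 * q * L),
        ∑ b ∈ Icc (-(34 * q * L : ℤ)) (34 * q * L), (Int.gcd a b : ℝ)
      ≤ ((69 * (q * L) : ℝ) * (3 * L)) * ∑ a ∈ Icc (-(34 * q * L : ℤ)) (34 * q * L),
        ∑ b ∈ Icc (-(34 * q * L : ℤ)) (34 * q * L), (Int.gcd a b : ℝ) := by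
        apply mul_le_mul_of_nonneg_right _ h0
        apply mul_le_mul _ _ (by positivity) (by positivity)
        · linarith
        · linarith
    _ ≤ _ := mul_le_mul_of_nonneg_left hg (by positivity)

theorem DC_vbox_card (q L : ℕ) (hq : 1 ≤ q) (hL : 1 ≤ L) :
    ((vboxQ q L).card : ℝ) ≤ (69 * (q * L)) ^ 3 * (3 * L) := by
  unfold vboxQ
  rw [card_product, card_product, card_product, Int.card_Icc, Int.card_Icc]
  have hqL : 1 ≤ q * L := Nat.mul_pos hq hL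
  have hqL' : (1 : ℝ) ≤ (q : ℝ) * L := by exact_mod_cast hqL
  have hL' : (1 : ℝ) ≤ L := by exact_mod_cast hL
  have e1 : (34 * (q : ℤ) * L + 1 - -(34 * q * L)).toNat = 68 * (q * L) + 1 := by
    have : (34 * (q : ℤ) * L + 1 - -(34 * q * L)) = ((68 * (q * L) + 1 : ℕ) : ℤ) := by
      push_cast; ring
    rw [this, Int.toNat_natCast]
  have e2 : ((L : ℤ) + 1 - -L).toNat = 2 * L + 1 := by omega
  rw [e1, e2]
  push_cast
  have a1 : (68 * ((q : ℝ) * L) + 1 : ℝ) ≤ 69 * (q * L) := by linarith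
  have a2 : (2 * L + 1 : ℝ) ≤ 3 * L := by linarith
  calc (68 * ((q : ℝ) * L) + 1) * ((68 * (q * L) + 1) * ((68 * (q * L) + 1) * (2 * L + 1))) ≤
      (69 * (q * L)) * ((69 * (q * L)) * ((69 * (q * L)) * (3 * L))) := by
        gcongr
    _ = _ := by ring

/-- DC (twisted dual count; adapt helper77/FT/P6c.lean) -/
theorem dual_countQ (ε : ℝ) (hε : 0 < ε) : ∃ C : ℝ, 1 ≤ C ∧ ∀ T K y P q L : ℕ, 1 ≤ K → K ≤ T →
    1 ≤ P → P ≤ T ^ 4 → 1 ≤ q → q ≤ T → 1 ≤ L → L ≤ T → Squarefree y →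
    ((dualSetQ K y P q L).card : ℝ) ≤ C * (T : ℝ) ^ ε *
      ((q * L : ℝ) ^ 3 * L * (1 + (K : ℝ) ^ 2 / (y * P)) + (q * L : ℝ) ^ 2 * (K : ℝ) ^ 2 / y) := by
  obtain ⟨Ca, hCa1, hCa⟩ := P6c_div (ε / 5) (by positivity) (4000 * 34 ^ 6) (by norm_num) 12
  obtain ⟨Cb, hCb1, hCb⟩ := P6c_div (ε / 5) (by positivity) 2 (by norm_num) 4
  obtain ⟨Cc, hCc1, hCc⟩ := P6c_div (ε / 5) (by positivity) 1 (by norm_num) 2
  obtain ⟨Cd, hCd1, hCd⟩ := DC_log (ε / 5) (by positivity)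
  obtain ⟨Ce, hCe1, hCe⟩ := P6c_div (ε / 5) (by positivity) 272 (by norm_num) 5
  obtain ⟨Cg0, hCg0⟩ := gcd_sum
  obtain ⟨Cz0, hCz0⟩ := degenerate
  set Cg := |Cg0| with hCg
  set Cz := |Cz0| with hCz
  have hCg_nn : 0 ≤ Cg := abs_nonneg _
  have hCz_nn : 0 ≤ Cz := abs_nonneg _
  refine ⟨Ca * Cb ^ 2 * Cc * (1000000 + 500000 * Cg * Cd) + 1156 * Cz * Cc * Ce, ?_, ?_⟩
  · have h1 : 1 ≤ Ca * Cb ^ 2 * Cc :=
      one_le_mul_of_one_le_of_one_le (one_le_mul_of_one_le_of_one_le hCa1 (one_le_pow₀ hCb1)) hCc1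
    have h2 : 1 ≤ 1000000 + 500000 * Cg * Cd := by
      have : 0 ≤ 500000 * Cg * Cd := by positivity
      linarith
    have h3 : 0 ≤ 1156 * Cz * Cc * Ce := by positivity
    have h4 := one_le_mul_of_one_le_of_one_le h1 h2
    linarith
  intro T K y P q L hK hKT hP hPT hq hqT hL hLT hy
  have hT : 1 ≤ T := hK.trans hKT
  have hT' : (1 : ℝ) ≤ T := by exact_mod_cast hT
  have hK' : (1 : ℝ) ≤ K := by exact_mod_cast hK
  have hP' : (1 : ℝ) ≤ P := by exact_mod_cast hP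
  have hL' : (1 : ℝ) ≤ L := by exact_mod_cast hL
  have hq' : (1 : ℝ) ≤ q := by exact_mod_cast hq
  have hqL : 1 ≤ q * L := Nat.mul_pos hq hL
  have hqL' : (1 : ℝ) ≤ (q : ℝ) * L := by exact_mod_cast hqL
  have hqLT : q * L ≤ T ^ 2 := by rw [pow_two]; exact Nat.mul_le_mul hqT hLT
  have hy0 : (0 : ℝ) < y := by exact_mod_cast Nat.pos_of_ne_zero hy.ne_zero
  set t : ℝ := (T : ℝ) ^ (ε / 5) with ht
  have ht1 : 1 ≤ t := Real.one_le_rpow hT' (by positivity)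
  have ht5 : (T : ℝ) ^ ε = t ^ 5 := by
    rw [ht, ← Real.rpow_natCast, ← Real.rpow_mul (by linarith)]
    congr 1
    push_cast
    ring
  -- bounds for the twisted points
  have hbd : ∀ v ∈ vboxQ q L, |(DC_tw q v).1| ≤ 34 * (T : ℤ) ^ 2 ∧
      |(DC_tw q v).2.1| ≤ 34 * (T : ℤ) ^ 2 ∧ |(DC_tw q v).2.2.1| ≤ 34 * (T : ℤ) ^ 2 ∧
      |(DC_tw q v).2.2.2| ≤ 34 * (T : ℤ) ^ 2 := by
    intro v hv
    obtain ⟨h1, h2, h3, h4⟩ := DC_mem hv
    have h5 : ((q : ℤ) * L) ≤ (T : ℤ) ^ 2 := by exact_mod_cast hqLT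
    exact ⟨by linarith, by linarith, by linarith, by linarith⟩
  rcases (pairs K K y).eq_empty_or_nonempty with hemp | ⟨p0, hp0⟩
  · have : dualSetQ K y P q L = ∅ := by
      rw [eq_empty_iff_forall_notMem]
      intro t ht'
      unfold dualSetQ at ht'
      simp only [mem_filter, mem_product, hemp, notMem_empty, false_and, and_false] at ht'
    rw [this]
    simp only [card_empty, Nat.cast_zero]
    have : 0 ≤ Ca * Cb ^ 2 * Cc * (1000000 + 500000 * Cg * Cd) + 1156 * Cz * Cc * Ce := by positivity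
    positivity
  have hyle : (y : ℝ) ≤ 1 * (T : ℝ) ^ 2 := by
    obtain ⟨q1, q2, q3, q4, q5⟩ := P6c_mem_pairs hp0
    have h1 : y ≤ p0.1 * p0.2 := Nat.le_of_dvd (Nat.mul_pos q1 q3) q5
    have h2 : p0.1 * p0.2 ≤ T * T := Nat.mul_le_mul (q2.trans hKT) (q4.trans hKT)
    have h3 : y ≤ T * T := h1.trans h2
    have : (y : ℝ) ≤ T * T := by exact_mod_cast h3
    linarith [this, (by ring : (T : ℝ) * T = 1 * (T : ℝ) ^ 2)]
  have hy2 : (2 : ℝ) ^ y.primeFactors.card ≤ Cc * t :=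
    (P6c_two_pow y (Nat.pos_of_ne_zero hy.ne_zero)).trans (hCc T hT y (Nat.pos_of_ne_zero hy.ne_zero) hyle)
  have hh3 : ∀ h ∈ Ico P (2 * P), (3 : ℝ) ^ h.primeFactors.card ≤ (Cb * t) ^ 2 := by
    intro h hh
    obtain ⟨h1, h2⟩ := mem_Ico.1 hh
    have hpos : 0 < h := by omega
    refine (P6c_three_pow h hpos).trans (pow_le_pow_left₀ (by positivity) (hCb T hT h hpos ?_) 2)
    have h3 : h ≤ 2 * T ^ 4 := by omega
    exact_mod_cast h3
  -- splitting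
  rw [DC_card, ← sum_filter_add_sum_filter_not (vboxQ q L)
    (fun v => Rf (DC_tw q v).1 (DC_tw q v).2.1 (DC_tw q v).2.2.1 (DC_tw q v).2.2.2 = 0)]
  -- degenerate part
  have partB : ∑ v ∈ (vboxQ q L).filter
        (fun v => Rf (DC_tw q v).1 (DC_tw q v).2.1 (DC_tw q v).2.2.1 (DC_tw q v).2.2.2 = 0),
      ∑ h ∈ Ico P (2 * P), ∑ p ∈ pairs K K y, P6c_c h p (DC_tw q v) ≤
      1156 * Cz * Cc * Ce * t ^ 5 * (((q : ℝ) * L) ^ 2 * (K : ℝ) ^ 2 / y) := by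
    have h1 : ∀ v ∈ (vboxQ q L).filter
          (fun v => Rf (DC_tw q v).1 (DC_tw q v).2.1 (DC_tw q v).2.2.1 (DC_tw q v).2.2.2 = 0),
        ∑ h ∈ Ico P (2 * P), ∑ p ∈ pairs K K y, P6c_c h p (DC_tw q v) ≤
          (Cc * t * (K * K / y)) * (Ce * t) := by
      intro v hv
      have hv' := (mem_filter.1 hv).1
      obtain ⟨b1, b2, b3, b4⟩ := hbd v hv'
      refine (P6c_second (Ce * t) (by positivity) ?_).trans ?_
      · intro p hp n hn hor
        refine hCe T hT n hn ?_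
        obtain ⟨q1, q2, q3, q4, -⟩ := P6c_mem_pairs hp
        have q2' : (p.1 : ℤ) ≤ T := by exact_mod_cast q2.trans hKT
        have q4' : (p.2 : ℤ) ≤ T := by exact_mod_cast q4.trans hKT
        obtain ⟨f1, f2⟩ := DC_F_le (34 * (T : ℤ) ^ 2) T (by positivity) (by positivity) _ _ _ _
          p.1 p.2 b1 b2 b3 b4 (by positivity) q2' (by positivity) q4'
        have : (n : ℤ) ≤ 272 * (T : ℤ) ^ 5 := by
          rcases hor with h' | h'
          · rw [h', Int.natCast_natAbs]; linarith [f1]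
          · rw [h', Int.natCast_natAbs]; linarith [f2]
        exact_mod_cast this
      · apply mul_le_mul_of_nonneg_right _ (by positivity)
        refine (pairs_card K K y hy).trans ?_
        exact mul_le_mul_of_nonneg_right hy2 (by positivity)
    have h2 : (((vboxQ q L).filter
        (fun v => Rf (DC_tw q v).1 (DC_tw q v).2.1 (DC_tw q v).2.2.1 (DC_tw q v).2.2.2 = 0)).card : ℝ) ≤
        Cz * (34 * (q * L)) ^ 2 := by
      have h3 := hCz0 (34 * (q * L)) (by omega)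
      have h4 : ((vboxQ q L).filter
          (fun v => Rf (DC_tw q v).1 (DC_tw q v).2.1 (DC_tw q v).2.2.1 (DC_tw q v).2.2.2 = 0)).card ≤
          ((Icc (-((34 * (q * L) : ℕ) : ℤ)) ((34 * (q * L) : ℕ) : ℤ) ×ˢ
            Icc (-((34 * (q * L) : ℕ) : ℤ)) ((34 * (q * L) : ℕ) : ℤ) ×ˢ
            Icc (-((34 * (q * L) : ℕ) : ℤ)) ((34 * (q * L) : ℕ) : ℤ) ×ˢ
            Icc (-((34 * (q * L) : ℕ) : ℤ)) ((34 * (q * L) : ℕ) : ℤ)).filter
            (fun v => Rf v.1 v.2.1 v.2.2.1 v.2.2.2 = 0)).card := by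
        apply card_le_card_of_injOn (DC_tw q)
        · intro v hv
          rw [mem_coe, mem_filter] at hv ⊢
          obtain ⟨c1, c2, c3, c4⟩ := DC_mem hv.1
          refine ⟨?_, hv.2⟩
          simp only [mem_product, mem_Icc]
          push_cast
          exact ⟨abs_le.1 c1, abs_le.1 c2, abs_le.1 c3, abs_le.1 c4⟩
        · rintro ⟨A, A', B, X⟩ - ⟨A2, A2', B2, X2⟩ - hvw
          unfold DC_tw at hvw
          simp only [Prod.mk.injEq] at hvw ⊢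
          obtain ⟨g1, g2, g3, g4⟩ := hvw
          have hq0 : (q : ℤ) ≠ 0 := by positivity
          exact ⟨g1, g2, g3, mul_left_cancel₀ hq0 g4⟩
      have h5 : (((vboxQ q L).filter
          (fun v => Rf (DC_tw q v).1 (DC_tw q v).2.1 (DC_tw q v).2.2.1 (DC_tw q v).2.2.2 = 0)).card : ℝ) ≤
          Cz0 * ((34 * (q * L) : ℕ) : ℝ) ^ 2 := le_trans (by exact_mod_cast h4) h3
      refine h5.trans ?_
      push_cast
      exact mul_le_mul_of_nonneg_right (le_abs_self _) (by positivity)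
    calc _ ≤ ∑ v ∈ (vboxQ q L).filter
          (fun v => Rf (DC_tw q v).1 (DC_tw q v).2.1 (DC_tw q v).2.2.1 (DC_tw q v).2.2.2 = 0),
          (Cc * t * (K * K / y)) * (Ce * t) :=
          sum_le_sum h1
      _ = (((vboxQ q L).filter
          (fun v => Rf (DC_tw q v).1 (DC_tw q v).2.1 (DC_tw q v).2.2.1 (DC_tw q v).2.2.2 = 0)).card : ℝ) *
          ((Cc * t * (K * K / y)) * (Ce * t)) := by
          rw [sum_const, nsmul_eq_mul]
      _ ≤ (Cz * (34 * (q * L)) ^ 2) * ((Cc * t * (K * K / y)) * (Ce * t)) :=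
          mul_le_mul_of_nonneg_right h2 (by positivity)
      _ = (1156 * Cz * Cc * Ce * (((q : ℝ) * L) ^ 2 * (K : ℝ) ^ 2 / y)) * t ^ 2 := by ring
      _ ≤ (1156 * Cz * Cc * Ce * (((q : ℝ) * L) ^ 2 * (K : ℝ) ^ 2 / y)) * t ^ 5 := by
          apply mul_le_mul_of_nonneg_left _ (by positivity)
          exact pow_le_pow_right₀ ht1 (by norm_num)
      _ = _ := by ring
  -- main part
  have partA : ∑ v ∈ (vboxQ q L).filter
        (fun v => ¬ Rf (DC_tw q v).1 (DC_tw q v).2.1 (DC_tw q v).2.2.1 (DC_tw q v).2.2.2 = 0),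
      ∑ h ∈ Ico P (2 * P), ∑ p ∈ pairs K K y, P6c_c h p (DC_tw q v) ≤
      Ca * Cb ^ 2 * Cc * (1000000 + 500000 * Cg * Cd) * t ^ 5 *
        (((q : ℝ) * L) ^ 3 * L * (1 + (K : ℝ) ^ 2 / (y * P))) := by
    have h1 : ∀ v ∈ (vboxQ q L).filter
          (fun v => ¬ Rf (DC_tw q v).1 (DC_tw q v).2.1 (DC_tw q v).2.2.1 (DC_tw q v).2.2.2 = 0),
        ∑ h ∈ Ico P (2 * P), ∑ p ∈ pairs K K y, P6c_c h p (DC_tw q v) ≤
        (Ca * t) * ((Cb * t) ^ 2 * (Cc * t) * (1 + 2 * K * K * Int.gcd v.1 v.2.1 / (P * y))) := by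
      intro v hv
      obtain ⟨hv1, hv2⟩ := mem_filter.1 hv
      obtain ⟨b1, b2, b3, b4⟩ := hbd v hv1
      refine (P6c_first hK hy hv2 ((Cb * t) ^ 2) (Cc * t) (by positivity) (by positivity) hP hh3 hy2).trans ?_
      apply mul_le_mul_of_nonneg_right _ (by positivity)
      refine hCa T hT _ (Int.natAbs_pos.2 hv2) ?_
      have h3 := DC_Rf_le (34 * (T : ℤ) ^ 2) (by positivity) _ _ _ _ b1 b2 b3 b4
      rw [← Int.natCast_natAbs] at h3
      have h4 : (4000 * (34 * (T : ℤ) ^ 2) ^ 6) = (4000 * 34 ^ 6 : ℕ) * (T : ℤ) ^ 12 := by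
        push_cast; ring
      rw [h4] at h3
      exact_mod_cast h3
    have hgs := DC_vbox_sum q L hq hL Cg (Cd * t) (by
      refine (hCg0 (34 * (q * L)) (by omega)).trans ?_
      apply mul_le_mul
      · exact mul_le_mul_of_nonneg_right (le_abs_self _) (by positivity)
      · exact hCd T (q * L) hT hqL hqLT
      · have : (1 : ℝ) ≤ ((34 * (q * L) : ℕ) : ℝ) := by push_cast; linarith
        have := Real.log_nonneg this
        linarith
      · positivity)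
    have hvc := DC_vbox_card q L hq hL
    calc _ ≤ ∑ v ∈ (vboxQ q L).filter
          (fun v => ¬ Rf (DC_tw q v).1 (DC_tw q v).2.1 (DC_tw q v).2.2.1 (DC_tw q v).2.2.2 = 0),
          (Ca * t) * ((Cb * t) ^ 2 * (Cc * t) * (1 + 2 * K * K * Int.gcd v.1 v.2.1 / (P * y))) := sum_le_sum h1
      _ ≤ ∑ v ∈ vboxQ q L,
          (Ca * t) * ((Cb * t) ^ 2 * (Cc * t) * (1 + 2 * K * K * Int.gcd v.1 v.2.1 / (P * y))) := by
          apply sum_le_sum_of_subset_of_nonneg (filter_subset _ _)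
          intro v _ _
          positivity
      _ = (Ca * t) * ((Cb * t) ^ 2 * (Cc * t)) * ((vboxQ q L).card + 2 * K * K / (P * y) *
            ∑ v ∈ vboxQ q L, (Int.gcd v.1 v.2.1 : ℝ)) := by
          have hterm : ∀ v : ℤ × ℤ × ℤ × ℤ,
              (Ca * t) * ((Cb * t) ^ 2 * (Cc * t) * (1 + 2 * K * K * Int.gcd v.1 v.2.1 / (P * y))) =
              (Ca * t) * ((Cb * t) ^ 2 * (Cc * t)) +
              (Ca * t) * ((Cb * t) ^ 2 * (Cc * t)) * (2 * K * K / (P * y)) * (Int.gcd v.1 v.2.1 : ℝ) := by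
            intro v; ring
          rw [sum_congr rfl fun v _ => hterm v, sum_add_distrib, sum_const, nsmul_eq_mul, ← mul_sum]
          ring
      _ ≤ (Ca * t) * ((Cb * t) ^ 2 * (Cc * t)) * ((69 * (q * L)) ^ 3 * (3 * L) + 2 * K * K / (P * y) *
            ((69 * (q * L) : ℝ) * (3 * L) * (Cg * ((34 * (q * L) : ℕ) : ℝ) ^ 2 * (Cd * t)))) := by
          apply mul_le_mul_of_nonneg_left _ (by positivity)
          apply add_le_add hvc
          exact mul_le_mul_of_nonneg_left hgs (by positivity)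
      _ = Ca * Cb ^ 2 * Cc * t ^ 4 * (((q : ℝ) * L) ^ 3 * L) *
            (985527 + 478584 * Cg * Cd * t * ((K : ℝ) ^ 2 / (y * P))) := by
          push_cast
          field_simp
          ring
      _ ≤ Ca * Cb ^ 2 * Cc * t ^ 4 * (((q : ℝ) * L) ^ 3 * L) *
            ((1000000 + 500000 * Cg * Cd) * t * (1 + (K : ℝ) ^ 2 / (y * P))) := by
          apply mul_le_mul_of_nonneg_left _ (by positivity)
          have q1 : 0 ≤ (K : ℝ) ^ 2 / (y * P) := by positivity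
          have q2 : 0 ≤ Cg * Cd * t := by positivity
          have q3 : 0 ≤ t * ((K : ℝ) ^ 2 / (y * P)) := by positivity
          have q4 : 0 ≤ Cg * Cd * t * ((K : ℝ) ^ 2 / (y * P)) := by positivity
          nlinarith
      _ = _ := by ring
  rw [ht5]
  calc _ ≤ 1156 * Cz * Cc * Ce * t ^ 5 * (((q : ℝ) * L) ^ 2 * (K : ℝ) ^ 2 / y) +
        Ca * Cb ^ 2 * Cc * (1000000 + 500000 * Cg * Cd) * t ^ 5 *
          (((q : ℝ) * L) ^ 3 * L * (1 + (K : ℝ) ^ 2 / (y * P))) :=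
        add_le_add partB partA
    _ ≤ _ := by
      have w1 : 0 ≤ 1156 * Cz * Cc * Ce * t ^ 5 * (((q : ℝ) * L) ^ 3 * L * (1 + (K : ℝ) ^ 2 / (y * P))) := by
        positivity
      have w2 : 0 ≤ Ca * Cb ^ 2 * Cc * (1000000 + 500000 * Cg * Cd) * t ^ 5 *
          (((q : ℝ) * L) ^ 2 * (K : ℝ) ^ 2 / y) := by positivity
      nlinarith

end Pool.Agent.helper28.LT
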