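import Pool.Agent.helper28.LT.Base
import Pool.Agent.helper61.FT.A1

set_option autoImplicit false

/-! Module EX (the elements attached to a tuple) of the LT project. -/

namespace Pool.Agent.helper28.LT

open Finset NumberField Pool.Agent.helper3.FT Pool.Agent.helper47.RA

variable {K : Type} [Field K] [NumberField K]

/-- an algebraic integer with given trace and `ω`-coordinate -/
theorem EX_mk (Q : QF K) (X Y N : ℤ) (h : X ^ 2 - Q.D * Y ^ 2 = 4 * N) :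
    ∃ w : 𝓞 K, 2 * w = X + Y * (2 * Q.ω - Q.t) ∧ w + Q.cj w = X ∧ w * Q.cj w = N ∧ Q.Y w = Y := by
  have ht := Q.t_sq
  have hk := Q.hk
  have h4 : (X - Q.t * Y) * (X + Q.t * Y) = 4 * (N + Q.k * Y ^ 2) := by
    rw [hk] at h
    linear_combination h - Y ^ 2 * ht
  have hpar : (X - Q.t * Y) % 2 = 0 := by
    rcases Int.emod_two_eq_zero_or_one (X - Q.t * Y) with h0 | h0
    · exact h0
    · exfalso
      have h1 : (X + Q.t * Y) % 2 = 1 := by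
        have : X + Q.t * Y = (X - Q.t * Y) + 2 * (Q.t * Y) := by ring
        rw [this]; omega
      have h2 : ((X - Q.t * Y) * (X + Q.t * Y)) % 2 = 1 := by
        rw [Int.mul_emod, h0, h1]; norm_num
      rw [h4] at h2
      omega
  obtain ⟨x, hx⟩ : ∃ x, X - Q.t * Y = 2 * x := ⟨(X - Q.t * Y) / 2, by omega⟩
  have hX : X = 2 * x + Q.t * Y := by linarith
  have hXc : (X : 𝓞 K) = 2 * x + Q.t * Y := by rw [hX]; push_cast; ring
  refine ⟨x + Y * Q.ω, ?_, ?_, ?_, Q.Y_spec x Y⟩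
  · rw [hXc]; ring
  · rw [Q.cj_form, hXc]; push_cast; ring
  · rw [Q.norm_form]
    congr 1
    rw [hX, hk] at h
    have : 4 * (x ^ 2 + Q.t * x * Y - Q.k * Y ^ 2) = 4 * N := by
      linear_combination h - Y ^ 2 * ht
    linarith

theorem EX_ne {c : ℤ} (h : c ≠ 0) : (c : 𝓞 K) ≠ 0 := by exact_mod_cast h

/-- EX -/
theorem exists_El (Q : QF K) (κ s f n k : ℕ) (m g Z Λ : ℤ) (hf : 1 ≤ f)
    (h : Tup κ s n k m g Z Λ ((f : ℤ) ^ 2 * Q.D)) :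
    ∃ E : El Q κ s f, E.n = n ∧ E.k = k ∧ E.m = m ∧ E.g = g ∧ E.Z = Z ∧ E.Λ = Λ := by
  have hn0 : (n : ℤ) ≠ 0 := by exact_mod_cast h.hn.ne_zero
  have hk0 : (k : ℤ) ≠ 0 := by exact_mod_cast h.hk.ne_zero
  have hΛ0 := h.Λ_ne
  have e1 := h.e1
  have e4 := h.e4
  set D : ℤ := (f : ℤ) ^ 2 * Q.D with hD
  -- `p`
  obtain ⟨p, hp⟩ : (k : ℤ) ∣ Z * g - Λ * m := by
    rw [← Int.pow_dvd_pow_iff (n := 2) (by norm_num)]
    exact ⟨D * (n : ℤ) ^ 2 + 4 * Z ^ 2 * Λ, by linear_combination -e4⟩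
  have hp2 : p ^ 2 = D * (n : ℤ) ^ 2 + 4 * Z ^ 2 * Λ := by
    have h1 : (k : ℤ) ^ 2 * p ^ 2 = (k : ℤ) ^ 2 * (D * (n : ℤ) ^ 2 + 4 * Z ^ 2 * Λ) := by
      have : (k : ℤ) ^ 2 * p ^ 2 = (Z * g - Λ * m) ^ 2 := by rw [hp]; ring
      rw [this]
      linear_combination -e4
    exact mul_left_cancel₀ (pow_ne_zero 2 hk0) h1
  -- `r`
  obtain ⟨r, hr⟩ : (n : ℤ) ∣ Z * g + Λ * m := by
    rw [← Int.pow_dvd_pow_iff (n := 2) (by norm_num)]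
    exact ⟨D * (k : ℤ) ^ 2 + 4 * Z * Λ ^ 2, by linear_combination -e4 + 4 * Z * Λ * e1⟩
  have hr2 : r ^ 2 = D * (k : ℤ) ^ 2 + 4 * Z * Λ ^ 2 := by
    have h1 : (n : ℤ) ^ 2 * r ^ 2 = (n : ℤ) ^ 2 * (D * (k : ℤ) ^ 2 + 4 * Z * Λ ^ 2) := by
      have : (n : ℤ) ^ 2 * r ^ 2 = (Z * g + Λ * m) ^ 2 := by rw [hr]; ring
      rw [this]
      linear_combination -e4 + 4 * Z * Λ * e1
    exact mul_left_cancel₀ (pow_ne_zero 2 hn0) h1
  have hnr : (n : ℤ) * r - p * k = 2 * Λ * m := by linear_combination hp - hr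
  -- `x'`
  obtain ⟨x', hx'⟩ : 2 * Λ ∣ p * r - n * k * D := by
    rw [← Int.pow_dvd_pow_iff (n := 2) (by norm_num)]
    refine ⟨4 * Z ^ 3 * Λ + m ^ 2 * D, ?_⟩
    linear_combination r ^ 2 * hp2 + (D * (n : ℤ) ^ 2 + 4 * Z ^ 2 * Λ) * hr2 +
      D * ((n : ℤ) * r - p * k + 2 * Λ * m) * hnr - D * (k : ℤ) ^ 2 * hp2 - D * (n : ℤ) ^ 2 * hr2
  have hx2 : x' ^ 2 = 4 * Z ^ 3 * Λ + m ^ 2 * D := by
    have h1 : (2 * Λ) ^ 2 * x' ^ 2 = (2 * Λ) ^ 2 * (4 * Z ^ 3 * Λ + m ^ 2 * D) := by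
      have : (2 * Λ) ^ 2 * x' ^ 2 = (p * r - n * k * D) ^ 2 := by rw [hx']; ring
      rw [this]
      linear_combination r ^ 2 * hp2 + (D * (n : ℤ) ^ 2 + 4 * Z ^ 2 * Λ) * hr2 +
        D * ((n : ℤ) * r - p * k + 2 * Λ * m) * hnr - D * (k : ℤ) ^ 2 * hp2 - D * (n : ℤ) ^ 2 * hr2
    exact mul_left_cancel₀ (pow_ne_zero 2 (mul_ne_zero (by norm_num) hΛ0)) h1
  -- `y`
  obtain ⟨y, hy⟩ : (k : ℤ) ∣ Z * (n : ℤ) ^ 2 - m ^ 2 := by
    obtain ⟨c, hc⟩ := h.e2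
    exact ⟨-c, by linear_combination -hc⟩
  have hpm : p * m + k * Z ^ 2 = Λ * y := by
    have h1 : (k : ℤ) * (p * m + k * Z ^ 2) = k * (Λ * y) := by
      linear_combination -m * hp + Z * e1 + Λ * hy
    exact mul_left_cancel₀ hk0 h1
  have hpx : p * m + n * x' = 2 * Λ * y := by
    have h1 : (2 * Λ) * (p * m + n * x') = (2 * Λ) * (2 * Λ * y) := by
      linear_combination -(n : ℤ) * hx' + p * hnr + k * hp2 + 4 * Λ * hpm
    exact mul_left_cancel₀ (mul_ne_zero (by norm_num) hΛ0) h1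
  -- `x''`
  obtain ⟨x₂, hx₂⟩ : 2 * Λ ∣ p * x' + n * m * D := by
    rw [← Int.pow_dvd_pow_iff (n := 2) (by norm_num)]
    refine ⟨4 * Z ^ 5 + y ^ 2 * D, ?_⟩
    linear_combination x' ^ 2 * hp2 + (D * (n : ℤ) ^ 2 + 4 * Z ^ 2 * Λ) * hx2 +
      D * (p * m + n * x' + 2 * Λ * y) * hpx - D * m ^ 2 * hp2 - D * (n : ℤ) ^ 2 * hx2
  have hx₂2 : x₂ ^ 2 = 4 * Z ^ 5 + y ^ 2 * D := by
    have h1 : (2 * Λ) ^ 2 * x₂ ^ 2 = (2 * Λ) ^ 2 * (4 * Z ^ 5 + y ^ 2 * D) := by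
      have : (2 * Λ) ^ 2 * x₂ ^ 2 = (p * x' + n * m * D) ^ 2 := by rw [hx₂]; ring
      rw [this]
      linear_combination x' ^ 2 * hp2 + (D * (n : ℤ) ^ 2 + 4 * Z ^ 2 * Λ) * hx2 +
        D * (p * m + n * x' + 2 * Λ * y) * hpx - D * m ^ 2 * hp2 - D * (n : ℤ) ^ 2 * hx2
    exact mul_left_cancel₀ (pow_ne_zero 2 (mul_ne_zero (by norm_num) hΛ0)) h1
  -- the elements
  obtain ⟨β, bβ, tβ, nβ, Yβ⟩ := EX_mk Q p (f * n) (Z ^ 2 * Λ) (by rw [hD] at hp2; linear_combination hp2)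
  obtain ⟨γ, bγ, tγ, nγ, Yγ⟩ := EX_mk Q r (f * k) (Z * Λ ^ 2) (by rw [hD] at hr2; linear_combination hr2)
  obtain ⟨u, bu, -, -, -⟩ := EX_mk Q x' (f * m) (Z ^ 3 * Λ) (by rw [hD] at hx2; linear_combination hx2)
  obtain ⟨α, bα, -, nα, Yα⟩ := EX_mk Q x₂ (f * y) (Z ^ 5) (by rw [hD] at hx₂2; linear_combination hx₂2)
  set δ : 𝓞 K := 2 * Q.ω - Q.t with hδ
  have hδ2 : δ ^ 2 = (Q.D : 𝓞 K) := Q.delta_sq
  have four_ne : (4 : 𝓞 K) ≠ 0 := by norm_num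
  have c1 : (p : 𝓞 K) * r - n * k * ((f : 𝓞 K) ^ 2 * Q.D) = 2 * Λ * x' := by
    rw [hD] at hx'
    exact_mod_cast hx'
  have c2 : (n : 𝓞 K) * r - p * k = 2 * Λ * m := by exact_mod_cast hnr
  have c3 : (p : 𝓞 K) * x' + n * m * ((f : 𝓞 K) ^ 2 * Q.D) = 2 * Λ * x₂ := by
    rw [hD] at hx₂
    exact_mod_cast hx₂
  have c4 : (p : 𝓞 K) * m + n * x' = 2 * Λ * y := by exact_mod_cast hpx
  have hcγ : 2 * Q.cj γ = r - (f : 𝓞 K) * k * δ := by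
    have : (2 : 𝓞 K) * γ = r + (f * k : 𝓞 K) * δ := by
      rw [bγ]; push_cast; ring
    linear_combination 2 * tγ - this
  have hbβ : 2 * β = p + (f : 𝓞 K) * n * δ := by rw [bβ]; push_cast; ring
  have hbu : 2 * u = x' + (f : 𝓞 K) * m * δ := by rw [bu]; push_cast; ring
  have hbα : 2 * α = x₂ + (f : 𝓞 K) * y * δ := by rw [bα]; push_cast; ring
  have E1 : β * Q.cj γ = Λ * u := by
    apply mul_left_cancel₀ four_ne
    linear_combination 2 * Q.cj γ * hbβ + (p + (f : 𝓞 K) * n * δ) * hcγ - 2 * Λ * hbu + c1 +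
      f * δ * c2 - (n : 𝓞 K) * k * f ^ 2 * hδ2
  have E2 : β * u = Λ * α := by
    apply mul_left_cancel₀ four_ne
    linear_combination 2 * u * hbβ + (p + (f : 𝓞 K) * n * δ) * hbu - 2 * Λ * hbα + c3 +
      f * δ * c4 + (n : 𝓞 K) * m * f ^ 2 * hδ2
  have hΛc : (Λ : 𝓞 K) ≠ 0 := EX_ne hΛ0
  have nβ' : β * Q.cj β = (Z : 𝓞 K) ^ 2 * Λ := by rw [nβ]; push_cast; ring
  have E5 : α * Q.cj β = (Z : 𝓞 K) ^ 2 * u := by
    apply mul_left_cancel₀ hΛc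
    linear_combination -Q.cj β * E2 + u * nβ'
  refine ⟨{ n := n, k := k, m := m, g := g, Z := Z, Λ := Λ, y := y, α := α, β := β, γ := γ, u := u,
            tup := h, hy := hy.symm, Yβ := Yβ, Yγ := Yγ, Yα := Yα, nβ := nβ',
            nγ := by rw [nγ]; push_cast; ring
            nα := by rw [nα]; push_cast; ring
            e3 := by linear_combination β * E1 + Λ * E2
            e5 := E5
            trβ := by rw [tβ, hp]; push_cast; ring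
            trγ := by rw [tγ, hr]; push_cast; ring }, rfl, rfl, rfl, rfl, rfl, rfl⟩

end Pool.Agent.helper28.LT
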